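import Pool.Agent.Helper7.EquivPair.Proof

set_option autoImplicit false

open NumberField Pool.Agent.Helper7.EquivPair

namespace Pool.Agent.Results.MP_d6b6f7_nt.EquivalentPair

/-- There are a real quadratic field `K`, an admissible pair `(α, β)` of indecomposable integers
of `K` and nonzero integers `m`, `n` with `m² < N(α)` and `n² < N(β)` such that the forms
`Q_{α,m}` and `Q_{β,n}` are equivalent over the ring of integers. In the proof `K = ℚ(√41)`,
`α = 13 + 2√41`, `β = (173 + 27√41) / 2`, `m = 2` and `n = 3`. -/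
theorem result : ∃ (K : Type) (_ : Field K) (_ : NumberField K) (σ : 𝓞 K ≃+* 𝓞 K)
    (α β : 𝓞 K) (m n : ℤ),
    Module.finrank ℚ K = 2 ∧ IsTotallyReal K ∧ σ ≠ RingEquiv.refl (𝓞 K) ∧
    Indecomposable α ∧ Indecomposable β ∧ Admissible σ α β ∧
    0 < m ^ 2 ∧ m ^ 2 < Algebra.norm ℤ α ∧ 0 < n ^ 2 ∧ n ^ 2 < Algebra.norm ℤ β ∧
    FormEquiv (form σ α m) (form σ β n) :=
  Pool.Agent.Helper7.EquivPair.main

end Pool.Agent.Results.MP_d6b6f7_nt.EquivalentPair
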